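import Pool.Agent.V7H44.MF.Tight

/-!
# Unramified extensions: the decomposition group acts through a cyclic group
-/

set_option autoImplicit false

namespace Pool.Agent.V7H44.MU

open Pool.Agent.Q60.MU IsLocalRing Polynomial
open scoped Pointwise

/-- the residue field of a valuation ring is algebraic over the prime field -/
theorem residue_algebraic {B : ValuationSubring Qb} {ℓ : ℕ} [Fact ℓ.Prime]
    [Algebra (ZMod ℓ) (ResidueField B)] (x : ResidueField B) : IsAlgebraic (ZMod ℓ) x := by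
  obtain ⟨b, rfl⟩ := IsLocalRing.residue_surjective x
  have halg : IsAlgebraic ℤ (b : Qb) :=
    (IsFractionRing.isAlgebraic_iff ℤ ℚ Qb).2
      ((AlgebraicClosure.isAlgebraic ℚ).isAlgebraic (b : Qb))
  obtain ⟨f, hf0, hf⟩ := halg
  have hc : f.content ≠ 0 := fun h => hf0 (content_eq_zero_iff.1 h)
  have h1 : aeval (b : Qb) f.primPart = 0 := by
    have h2 := hf
    rw [f.eq_C_content_mul_primPart, map_mul, aeval_C] at h2
    refine (mul_eq_zero.1 h2).resolve_left ?_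
    rw [eq_intCast]
    exact_mod_cast hc
  have h2 : aeval b f.primPart = 0 := by
    apply Subtype.ext
    exact (aeval_algebraMap_apply Qb b f.primPart).symm.trans h1
  have h3 : aeval (residue B b) f.primPart = 0 := by
    have h4 := hom_eval₂ f.primPart (algebraMap ℤ B) (residue B) b
    have h5 : eval₂ (algebraMap ℤ B) b f.primPart = 0 := h2
    rw [h5, map_zero] at h4
    rw [aeval_def, h4]
    congr 1
  refine ⟨f.primPart.map (Int.castRingHom (ZMod ℓ)), ?_, ?_⟩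
  · intro h4
    have h5 : (C (ℓ : ℤ)) ∣ f.primPart := by
      rw [C_dvd_iff_dvd_coeff]
      intro i
      have h6 := congrArg (fun q => q.coeff i) h4
      simp only [coeff_map, coeff_zero] at h6
      exact (ZMod.intCast_zmod_eq_zero_iff_dvd _ _).1 h6
    have h6 := f.isPrimitive_primPart _ h5
    rw [Int.isUnit_iff] at h6
    have h7 := (Fact.out : ℓ.Prime).one_lt
    omega
  · rw [aeval_def, eval₂_map]
    rw [aeval_def] at h3
    rw [← h3]
    congr 1
    exact RingHom.ext_int _ _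

theorem residue_char {B : ValuationSubring Qb} {ℓ : ℕ} (hℓ : ℓ.Prime)
    (hB : (ℓ : Qb) ∈ B.nonunits) : CharP (ResidueField B) ℓ := by
  have h1 : ((ℓ : ℕ) : ResidueField B) = 0 := by
    obtain ⟨ha, hm⟩ := ValuationSubring.mem_nonunits_iff_exists_mem_maximalIdeal.1 hB
    have h2 : residue B ⟨(ℓ : Qb), ha⟩ = 0 := (residue_eq_zero_iff _).2 hm
    have h3 : (⟨(ℓ : Qb), ha⟩ : B) = ((ℓ : ℕ) : B) := by
      apply Subtype.ext
      push_cast
      rfl
    rw [h3, map_natCast] at h2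
    exact h2
  obtain ⟨q, hq⟩ := CharP.exists (ResidueField B)
  have hd := (CharP.cast_eq_zero_iff (ResidueField B) q ℓ).1 h1
  rcases (Nat.dvd_prime hℓ).1 hd with h | h
  · subst h
    exact absurd rfl (CharP.char_ne_one (ResidueField B) 1)
  · subst h
    exact hq

/-- a group acting on the residue field acts on finite sets through a cyclic group -/
theorem cyclic_action {B : ValuationSubring Qb} {ℓ : ℕ} (hℓ : ℓ.Prime)
    (hB : (ℓ : Qb) ∈ B.nonunits) {Γ : Type*} [Group Γ] (θ : Γ →* RingAut (ResidueField B))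
    (X : Finset (ResidueField B)) :
    ∃ σ₀ : Γ, ∀ σ : Γ, ∃ j : ℤ, ∀ x ∈ X, θ (σ₀ ^ (-j) * σ) x = x := by
  classical
  have hf : Fact ℓ.Prime := ⟨hℓ⟩
  have hch := residue_char hℓ hB
  let _ : Algebra (ZMod ℓ) (ResidueField B) := ZMod.algebra _ ℓ
  have halg : Algebra.IsAlgebraic (ZMod ℓ) (ResidueField B) := ⟨residue_algebraic⟩
  have hfin : FiniteDimensional (ZMod ℓ)
      (IntermediateField.adjoin (ZMod ℓ) (X : Set (ResidueField B))) :=
    IntermediateField.finiteDimensional_adjoin fun x _ => Algebra.IsIntegral.isIntegral x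
  have hfin' : Finite (IntermediateField.adjoin (ZMod ℓ) (X : Set (ResidueField B))) :=
    Module.finite_of_finite (ZMod ℓ)
  let toAlg : RingAut (ResidueField B) →* (ResidueField B ≃ₐ[ZMod ℓ] ResidueField B) :=
    { toFun := fun e => AlgEquiv.ofRingEquiv (f := e) fun r => by
        obtain ⟨n, rfl⟩ := ZMod.natCast_zmod_surjective r
        rw [map_natCast, map_natCast]
      map_one' := by ext x; rfl
      map_mul' := fun a b => by ext x; rfl }
  let r := AlgEquiv.restrictNormalHom (F := ZMod ℓ) (K₁ := ResidueField B)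
    (IntermediateField.adjoin (ZMod ℓ) (X : Set (ResidueField B)))
  let φ := (r.comp toAlg).comp θ
  have hcyc : IsCyclic φ.range := inferInstance
  obtain ⟨⟨g, σ₀, hg⟩, hgen⟩ := hcyc.exists_generator
  refine ⟨σ₀, fun σ => ?_⟩
  obtain ⟨j, hj⟩ := hgen ⟨φ σ, σ, rfl⟩
  have hj' : g ^ j = φ σ := congrArg Subtype.val hj
  refine ⟨j, fun x hx => ?_⟩
  have h1 : φ (σ₀ ^ (-j) * σ) = 1 := by
    rw [map_mul, map_zpow, hg, ← hj', zpow_neg, inv_mul_cancel]
  have hx' : x ∈ IntermediateField.adjoin (ZMod ℓ) (X : Set (ResidueField B)) :=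
    IntermediateField.subset_adjoin _ _ hx
  have h2 := AlgEquiv.restrictNormal_commutes (toAlg (θ (σ₀ ^ (-j) * σ)))
    (IntermediateField.adjoin (ZMod ℓ) (X : Set (ResidueField B))) ⟨x, hx'⟩
  have h3 : (toAlg (θ (σ₀ ^ (-j) * σ))).restrictNormal
      (IntermediateField.adjoin (ZMod ℓ) (X : Set (ResidueField B))) = 1 := h1
  rw [h3] at h2
  exact h2.symm

/-- the maps `σ ↦ σ x` are locally constant -/
theorem isOpen_apply (x : Qb) (U : Set Qb) : IsOpen {σ : Gal(Qb/ℚ) | σ x ∈ U} := by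
  rw [isOpen_iff_forall_mem_open]
  intro σ hσ
  have hfd : FiniteDimensional ℚ (IntermediateField.adjoin ℚ {x}) :=
    IntermediateField.adjoin.finiteDimensional (Algebra.IsIntegral.isIntegral x)
  refine ⟨(fun τ => σ⁻¹ * τ) ⁻¹' ((IntermediateField.adjoin ℚ {x}).fixingSubgroup :
    Set Gal(Qb/ℚ)), ?_, (IntermediateField.fixingSubgroup_isOpen _).preimage
      (continuous_const_mul _), ?_⟩
  · intro τ hτ
    have h1 : (σ⁻¹ * τ) x = x :=
      (IntermediateField.mem_fixingSubgroup_iff _ _).1 hτ x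
        (IntermediateField.mem_adjoin_simple_self ℚ x)
    have h2 : τ x = σ x := by
      have h3 := congrArg σ h1
      rw [← AlgEquiv.mul_apply, mul_inv_cancel_left] at h3
      exact h3
    show τ x ∈ U
    rw [h2]
    exact hσ
  · show σ⁻¹ * σ ∈ (IntermediateField.adjoin ℚ {x}).fixingSubgroup
    rw [inv_mul_cancel]
    exact one_mem _

theorem isClosed_apply (x : Qb) (U : Set Qb) : IsClosed {σ : Gal(Qb/ℚ) | σ x ∈ U} := by
  rw [← isOpen_compl_iff]
  exact isOpen_apply x Uᶜ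

/-- The decomposition group. -/
noncomputable def dec (B : ValuationSubring Qb) : Subgroup Gal(Qb/ℚ) := B.decompositionSubgroup ℚ

theorem mem_dec {B : ValuationSubring Qb} {σ : Gal(Qb/ℚ)} : σ ∈ dec B ↔ σ • B = B := Iff.rfl

theorem mem_dec' {B : ValuationSubring Qb} {σ : Gal(Qb/ℚ)} :
    σ ∈ dec B ↔ ∀ x, σ x ∈ {y : Qb | y ∈ B ↔ x ∈ B} := by
  rw [mem_dec]
  constructor
  · intro h x
    constructor
    · intro h2
      have h3 : σ • x ∈ σ • B := by
        rw [h]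
        exact h2
      exact ValuationSubring.smul_mem_pointwise_smul_iff.1 h3
    · intro hx
      have h1 := ValuationSubring.smul_mem_pointwise_smul σ x B hx
      rw [h] at h1
      exact h1
  · intro h
    have hiff : ∀ x, σ x ∈ B ↔ x ∈ B := h
    ext x
    rw [ValuationSubring.mem_pointwise_smul_iff_inv_smul_mem, ← hiff]
    have h2 : σ (σ⁻¹ • x) = x := by
      show σ (σ⁻¹ x) = x
      rw [← AlgEquiv.mul_apply, mul_inv_cancel, AlgEquiv.one_apply]
    rw [h2]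

theorem dec_closed (B : ValuationSubring Qb) : IsClosed (dec B : Set Gal(Qb/ℚ)) := by
  have h1 : (dec B : Set Gal(Qb/ℚ)) = ⋂ x : Qb, {σ | σ x ∈ {y : Qb | y ∈ B ↔ x ∈ B}} := by
    ext σ
    rw [SetLike.mem_coe, mem_dec', Set.mem_iInter]
    rfl
  rw [h1]
  exact isClosed_iInter fun x => isClosed_apply x _

instance : CompactSpace Gal(Qb/ℚ) := inferInstance

/-- finitely many elements detect the inertia group modulo an open subgroup -/
theorem finite_detect (B : ValuationSubring Qb) {L W : Subgroup Gal(Qb/ℚ)}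
    (hL : IsClosed (L : Set Gal(Qb/ℚ))) (hW : IsOpen (W : Set Gal(Qb/ℚ)))
    (hI : ∀ σ ∈ inertia B, σ ∈ L → σ ∈ W) :
    ∃ Y : Finset B, ∀ σ ∈ L, σ ∈ dec B → (∀ a ∈ Y, σ (a : Qb) - a ∈ B.nonunits) → σ ∈ W := by
  have hs : IsCompact ((dec B : Set Gal(Qb/ℚ)) ∩ L ∩ (W : Set Gal(Qb/ℚ))ᶜ) :=
    (((dec_closed B).inter hL).inter hW.isClosed_compl).isCompact
  obtain ⟨Y, hY⟩ := hs.elim_finite_subfamily_closed
    (fun a : B => {σ : Gal(Qb/ℚ) | σ (a : Qb) ∈ {y : Qb | y - a ∈ B.nonunits}})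
    (fun a => isClosed_apply _ _) (by
      rw [Set.eq_empty_iff_forall_notMem]
      rintro σ ⟨⟨⟨h1, h2⟩, h3⟩, h4⟩
      apply h3
      refine hI σ ⟨h1, fun x hx => ?_⟩ h2
      exact Set.mem_iInter.1 h4 ⟨x, hx⟩)
  refine ⟨Y, fun σ h1 h2 h3 => ?_⟩
  by_contra h4
  have h5 : σ ∈ ((dec B : Set Gal(Qb/ℚ)) ∩ L ∩ (W : Set Gal(Qb/ℚ))ᶜ) ∩
      ⋂ a ∈ Y, {σ : Gal(Qb/ℚ) | σ (a : Qb) ∈ {y : Qb | y - a ∈ B.nonunits}} :=
    ⟨⟨⟨h2, h1⟩, h4⟩, Set.mem_iInter₂.2 fun a ha => h3 a ha⟩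
  rw [hY] at h5
  exact h5

/-- **The decomposition group modulo inertia is procyclic.** -/
theorem dec_cyclic {B : ValuationSubring Qb} {ℓ : ℕ} (hℓ : ℓ.Prime)
    (hB : (ℓ : Qb) ∈ B.nonunits) {L W : Subgroup Gal(Qb/ℚ)}
    (hL : IsClosed (L : Set Gal(Qb/ℚ))) (hW : IsOpen (W : Set Gal(Qb/ℚ)))
    (hI : ∀ σ ∈ inertia B, σ ∈ L → σ ∈ W) :
    ∃ σ₀ ∈ L, σ₀ ∈ dec B ∧ ∀ σ ∈ L, σ ∈ dec B → ∃ j : ℤ, σ₀ ^ (-j) * σ ∈ W := by
  classical
  obtain ⟨Y, hY⟩ := finite_detect B hL hW hI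
  let ι : (dec B ⊓ L : Subgroup Gal(Qb/ℚ)) →* B.decompositionSubgroup ℚ :=
    Subgroup.inclusion inf_le_left
  let θ : (dec B ⊓ L : Subgroup Gal(Qb/ℚ)) →* RingAut (ResidueField B) :=
    (MulSemiringAction.toRingAut (B.decompositionSubgroup ℚ) (ResidueField B)).comp ι
  obtain ⟨σ₀, h0⟩ := cyclic_action hℓ hB θ (Y.image (residue B))
  refine ⟨σ₀, σ₀.2.2, σ₀.2.1, fun σ h1 h2 => ?_⟩
  obtain ⟨j, hj⟩ := h0 ⟨σ, h2, h1⟩
  refine ⟨j, ?_⟩
  set τ : (dec B ⊓ L : Subgroup Gal(Qb/ℚ)) := σ₀ ^ (-j) * ⟨σ, h2, h1⟩ with hτ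
  have h3 : ((σ₀ : Gal(Qb/ℚ)) ^ (-j) * σ) = (τ : Gal(Qb/ℚ)) := by
    rw [hτ]
    push_cast
    rfl
  rw [h3]
  refine hY _ τ.2.2 τ.2.1 fun a ha => ?_
  have h4 : θ τ (residue B a) = residue B a := hj _ (Finset.mem_image_of_mem _ ha)
  have h5 : θ τ (residue B a) = residue B ((ι τ) • a) := rfl
  rw [h5, ← sub_eq_zero, ← map_sub, residue_eq_zero_iff] at h4
  rw [ValuationSubring.mem_nonunits_iff_exists_mem_maximalIdeal]
  exact ⟨((ι τ) • a - a : B).2, h4⟩

end Pool.Agent.V7H44.MU
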