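import Pool.Agent.V7H44.MU.Loc
import Pool.Agent.V7H44.DV.Conv

/-!
# One place decides: class groups in `p`-extensions and the vanishing of `μ`
-/

set_option autoImplicit false

namespace Pool.Agent.V7H44.MU

open Pool.Agent.Q60.MU Pool.Agent.V7H44.MF Module IntermediateField
open Pool.Agent.V7H44.DVS (NonSplit InPExtension OpenNormal)
open scoped Pointwise commutatorElement

/-- The union of the inertia groups of the places which are not in `S`. -/
def outside (S : Set (ValuationSubring Qb)) : Set Gal(Qb/ℚ) := {σ | ∃ A, A ∉ S ∧ σ ∈ inertia A}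

/-- `W` is an open normal subgroup of `p`-power index of `L` which contains all the inertia groups in
`L`. If `L` is the absolute Galois group of a number field, this is the absolute Galois group of a
finite Galois `p`-extension which is unramified at all finite places. -/
def Unramified (p : ℕ) (L W : Subgroup Gal(Qb/ℚ)) : Prop :=
  (∃ a : ℕ, OpenNormal W L (p ^ a)) ∧ ∀ A : ValuationSubring Qb, ∀ σ ∈ L, σ ∈ inertia A → σ ∈ W

/-- **Unramified `p`-extensions are cyclic.** -/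
theorem cyclic_quot {p : ℕ} [hp : Fact p.Prime] {L W : Subgroup Gal(Qb/ℚ)}
    (hLo : IsOpen (L : Set Gal(Qb/ℚ))) {S : Set (ValuationSubring Qb)} {B : ValuationSubring Qb}
    {ℓ : ℕ} (hℓ : ℓ.Prime) (hB : (ℓ : Qb) ∈ B.nonunits)
    (h : NonSplit p L (outside S) (dec B : Set Gal(Qb/ℚ))) (hW : Unramified p L W) :
    ∃ σ₀ ∈ L, σ₀ ∈ dec B ∧ ∀ σ ∈ L, ∃ j : ℤ, σ₀ ^ (-j) * σ ∈ W := by
  obtain ⟨⟨a, hN⟩, hT⟩ := hW
  obtain ⟨σ₀, h1, h2, hc⟩ := dec_cyclic hℓ hB (L.isClosed_of_isOpen hLo) hN.isOpen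
    (fun σ hσ hσL => hT B σ hσL hσ)
  refine ⟨σ₀, h1, h2, ?_⟩
  have hUn : (W.subgroupOf L).Normal := ⟨fun σ hσ r => hN.normal σ hσ r r.2⟩
  have hcard : Nat.card (L ⧸ W.subgroupOf L) = p ^ a := hN.index
  have hfin : Finite (L ⧸ W.subgroupOf L) :=
    Nat.finite_of_card_ne_zero (by rw [hcard]; exact (pow_pos hp.1.pos a).ne')
  set mk := QuotientGroup.mk' (W.subgroupOf L) with hmk
  have hmk1 : ∀ x : L, (x : Gal(Qb/ℚ)) ∈ W → mk x = 1 := fun x hx =>
    (QuotientGroup.eq_one_iff x).2 hx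
  set Q : Subgroup (L ⧸ W.subgroupOf L) := Subgroup.zpowers (mk ⟨σ₀, h1⟩) with hQ
  have hD : ∀ σ : L, (σ : Gal(Qb/ℚ)) ∈ dec B → mk σ ∈ Q := by
    intro σ hσ
    obtain ⟨j, hj⟩ := hc σ σ.2 hσ
    refine ⟨j, ?_⟩
    have h3 : mk ((⟨σ₀, h1⟩ : L) ^ (-j) * σ) = 1 := hmk1 _ hj
    rw [map_mul, map_zpow, zpow_neg, inv_mul_eq_one] at h3
    exact h3
  by_cases hQt : Q = ⊤
  · intro σ hσ
    have h3 : mk ⟨σ, hσ⟩ ∈ Q := by rw [hQt]; trivial
    obtain ⟨j, hj⟩ := h3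
    refine ⟨j, ?_⟩
    have hj' : mk ⟨σ₀, h1⟩ ^ j = mk ⟨σ, hσ⟩ := hj
    have h4 : mk ((⟨σ₀, h1⟩ : L) ^ (-j) * ⟨σ, hσ⟩) = 1 := by
      rw [map_mul, map_zpow, zpow_neg, hj', inv_mul_cancel]
    have h5 : (⟨σ₀, h1⟩ : L) ^ (-j) * ⟨σ, hσ⟩ ∈ W.subgroupOf L := (QuotientGroup.eq_one_iff _).1 h4
    exact h5
  · exfalso
    obtain ⟨K, hK, hKn, hQK⟩ := DV.exists_idxP (p := p) hcard hQt
    have h' := DVS.nonSplit_to (T := outside S) (D := dec B) hLo h
    have hUV : W.subgroupOf L ≤ K.comap mk := by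
      intro u hu
      show mk u ∈ K
      rw [hmk1 u hu]
      exact one_mem K
    refine h' (K.comap mk) (hKn.comap _) ?_ ?_ ?_ ?_
    · rw [Subgroup.index_comap_of_surjective K (QuotientGroup.mk'_surjective _), hK]
    · exact Subgroup.isOpen_mono hUV (hN.isOpen.preimage continuous_subtype_val)
    · rintro t ⟨A, -, hA⟩
      exact hUV (hT A t t.2 hA)
    · intro δ hδ
      exact hQK (hD δ hδ)

/-- **The rank of the class group.** -/
theorem rankLe {p : ℕ} [hp : Fact p.Prime] {L : Subgroup Gal(Qb/ℚ)}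
    (hLo : IsOpen (L : Set Gal(Qb/ℚ))) {S : Set (ValuationSubring Qb)} {B : ValuationSubring Qb}
    {ℓ : ℕ} (hℓ : ℓ.Prime) (hB : (ℓ : Qb) ∈ B.nonunits)
    (h : NonSplit p L (outside S) (dec B : Set Gal(Qb/ℚ))) : RankLe p inertia L p := by
  intro W hWL hWo hWf hg
  have hUn : (W.subgroupOf L).Normal := by
    refine ⟨fun q hq l => ?_⟩
    rw [Subgroup.mem_subgroupOf] at hq ⊢
    have h1 : ((l * q * l⁻¹ : L) : Gal(Qb/ℚ)) = ⁅(l : Gal(Qb/ℚ)), (q : Gal(Qb/ℚ))⁆ * q := by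
      rw [commutatorElement_def]
      push_cast
      group
    rw [h1]
    exact W.mul_mem (hg (Or.inl (Or.inr ⟨l, l.2, q, hWL hq, rfl⟩))) hq
  have hUf : (W.subgroupOf L).FiniteIndex := ⟨hWf⟩
  have hfin : Finite (L ⧸ W.subgroupOf L) := inferInstance
  have hpow : ∀ x : L, (x : Gal(Qb/ℚ)) ^ p ∈ W := fun x =>
    hg (Or.inl (Or.inl ⟨x, x.2, rfl⟩))
  have hP : IsPGroup p (L ⧸ W.subgroupOf L) := by
    intro x
    obtain ⟨g, rfl⟩ := QuotientGroup.mk_surjective x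
    refine ⟨1, ?_⟩
    rw [← QuotientGroup.mk_pow, pow_one]
    exact (QuotientGroup.eq_one_iff _).2 (hpow g)
  obtain ⟨a, ha⟩ := IsPGroup.iff_card.1 hP
  obtain ⟨σ₀, h1, -, h3⟩ := cyclic_quot (W := W) hLo hℓ hB h
    ⟨⟨a, hWL, hWo, fun σ hσ r hr => hUn.conj_mem ⟨σ, hWL hσ⟩ hσ ⟨r, hr⟩, ha⟩,
      fun A σ hσ hA => hg (Or.inr ⟨hσ, A, hA⟩)⟩
  show Nat.card (L ⧸ W.subgroupOf L) ≤ p
  set mk := QuotientGroup.mk' (W.subgroupOf L) with hmk
  have htop : Subgroup.zpowers (mk ⟨σ₀, h1⟩) = ⊤ := by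
    rw [eq_top_iff]
    rintro x -
    obtain ⟨g, rfl⟩ := QuotientGroup.mk_surjective x
    obtain ⟨j, hj⟩ := h3 g g.2
    refine ⟨j, ?_⟩
    have h4 : mk ((⟨σ₀, h1⟩ : L) ^ (-j) * g) = 1 := (QuotientGroup.eq_one_iff _).2 hj
    rw [map_mul, map_zpow, zpow_neg, inv_mul_eq_one] at h4
    exact h4
  have h5 : mk ⟨σ₀, h1⟩ ^ p = 1 := by
    rw [← map_pow]
    exact (QuotientGroup.eq_one_iff _).2 (hpow ⟨σ₀, h1⟩)
  rw [← Subgroup.card_top, ← htop, Nat.card_zpowers]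
  exact orderOf_le_of_pow_eq_one hp.1.pos h5

/-- The inertia groups of the places not above `p` fix the roots of unity of `p`-power order. -/
theorem inertia_cyc {p : ℕ} (hp : p.Prime) {A : ValuationSubring Qb}
    (hA : (p : Qb) ∉ A.nonunits) {σ : Gal(Qb/ℚ)} (hσ : σ ∈ inertia A) (m : ℕ) :
    σ ∈ (cyc p m).fixingSubgroup := by
  have key : ∀ z : Qb, z ^ p ^ (m + 1) = 1 → σ z = z := by
    intro z hz
    have hN : 0 < p ^ (m + 1) := pow_pos hp.pos _
    have hz0 : z ≠ 0 := by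
      rintro rfl
      rw [zero_pow hN.ne'] at hz
      exact zero_ne_one hz
    have hint : ∀ y : Qb, y ^ p ^ (m + 1) = 1 → y ∈ A := by
      intro y hy
      refine integral_mem A ?_
      refine IsIntegral.of_pow hN ?_
      rw [hy]
      exact isIntegral_one
    have hzi : z⁻¹ ∈ A := hint _ (by rw [inv_pow, hz, inv_one])
    set u := σ z * z⁻¹ with hu
    have hun : u ^ p ^ (m + 1) = 1 := by
      rw [hu, mul_pow, ← map_pow, hz, map_one, inv_pow, hz, inv_one, mul_one]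
    have huA : u ∈ A := hint u hun
    have hu1 : u - 1 ∈ A.nonunits := by
      have h1 : u - 1 = (σ z - z) * z⁻¹ := by
        rw [hu, sub_mul, mul_inv_cancel₀ hz0]
      rw [h1]
      exact mul_nonunits (hσ.2 z (hint z hz)) hzi
    have hui : ∀ i : ℕ, u ^ i - 1 ∈ A.nonunits := by
      intro i
      induction i with
      | zero =>
        rw [pow_zero, sub_self]
        exact zero_mem _
      | succ i ih =>
        have h1 : u ^ (i + 1) - 1 = (u ^ i - 1) * u + (u - 1) := by ring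
        rw [h1]
        exact add_mem (mul_nonunits ih huA) hu1
    by_cases h1 : u = 1
    · have h2 : σ z = u * z := by
        rw [hu, mul_assoc, inv_mul_cancel₀ hz0, mul_one]
      rw [h2, h1, one_mul]
    · exfalso
      have hgeo : ∑ i ∈ Finset.range (p ^ (m + 1)), u ^ i = 0 := by
        have h2 := geom_sum_mul u (p ^ (m + 1))
        rw [hun, sub_self] at h2
        exact (mul_eq_zero.1 h2).resolve_right (sub_ne_zero.2 h1)
      have h3 : ((p ^ (m + 1) : ℕ) : Qb) ∈ A.nonunits := by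
        have h4 : ((p ^ (m + 1) : ℕ) : Qb) =
            -∑ i ∈ Finset.range (p ^ (m + 1)), (u ^ i - 1) := by
          rw [Finset.sum_sub_distrib, hgeo, Finset.sum_const, Finset.card_range, nsmul_eq_mul,
            mul_one, zero_sub, neg_neg]
        rw [h4]
        exact neg_mem (sum_mem fun i _ => hui i)
      obtain ⟨q, hq, hqA⟩ := exists_prime hN.ne' h3
      rw [Nat.primeFactors_prime_pow (Nat.succ_ne_zero m) hp, Finset.mem_singleton] at hq
      rw [hq] at hqA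
      exact hA hqA
  have hle : cyc p m ≤ fixedField (Subgroup.zpowers σ) := by
    unfold cyc
    rw [adjoin_le_iff]
    intro z hz
    have h1 : σ ∈ MulAction.stabilizer Gal(Qb/ℚ) z := key z hz
    rintro ⟨g, hg⟩
    exact (Subgroup.zpowers_le.2 h1) hg
  exact ((le_iff_le _ _).1 hle) (Subgroup.mem_zpowers σ)

/-- **The fields of the cyclotomic tower.** -/
theorem tower_ext {p : ℕ} [hp : Fact p.Prime] {R : ℕ → IntermediateField ℚ Qb}
    (hR : IsCyclotomicTower p R) {S : Set (ValuationSubring Qb)}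
    (hS : ∀ A : ValuationSubring Qb, (p : Qb) ∈ A.nonunits → A ∈ S) {K : Subgroup Gal(Qb/ℚ)}
    {F : IntermediateField ℚ Qb} (hF : InPExtension p K F.fixingSubgroup (outside S)) (m : ℕ) :
    InPExtension p K (F ⊔ R m).fixingSubgroup (outside S) := by
  obtain ⟨hFK, N, a, hNF, hN, hu⟩ := hF
  have hfd := tower_finite hR m
  have hZn : (R m).fixingSubgroup.Normal :=
    (InfiniteGalois.normal_iff_isGalois (R m)).2 (tower_galois hR m)
  have hZi : (R m).fixingSubgroup.index = p ^ m := by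
    rw [← finrank_eq_fixingSubgroup_index, (hR m).2]
  rw [fixingSubgroup_sup]
  obtain ⟨c, -, hc⟩ := (Nat.dvd_prime_pow hp.1).1
    (hZi ▸ Subgroup.relIndex_dvd_index_of_normal (R m).fixingSubgroup N)
  refine ⟨inf_le_left.trans hFK, N ⊓ (R m).fixingSubgroup, c + a,
    inf_le_inf_right _ hNF, ⟨inf_le_left.trans hN.le, ?_, ?_, ?_⟩, ?_⟩
  · exact hN.isOpen.inter (R m).fixingSubgroup_isOpen
  · exact fun σ hσ r hr => ⟨hN.normal σ hσ.1 r hr, hZn.conj_mem σ hσ.2 r⟩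
  · rw [← Subgroup.relIndex_mul_relIndex (N ⊓ (R m).fixingSubgroup) N K inf_le_left hN.le,
      Subgroup.inf_relIndex_left, hc, hN.index, pow_add]
  · rintro σ hσ ⟨A, hAS, hA⟩
    refine ⟨hu σ hσ ⟨A, hAS, hA⟩, ?_⟩
    exact fixingSubgroup_le (hR m).1 (inertia_cyc hp.1 (fun h => hAS (hS A h)) hA m)

/-- `S` is a set of places of `M`: it is stable under the conjugation by the absolute Galois group of
`M`. -/
def IsPlaceSet (M : IntermediateField ℚ Qb) (S : Set (ValuationSubring Qb)) : Prop :=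
  ∀ σ ∈ M.fixingSubgroup, ∀ A ∈ S, σ • A ∈ S

theorem outside_conj {M : IntermediateField ℚ Qb} {S : Set (ValuationSubring Qb)}
    (hS : IsPlaceSet M S) : ∀ t ∈ outside S, ∀ r ∈ M.fixingSubgroup, r * t * r⁻¹ ∈ outside S := by
  rintro t ⟨A, hA, ht⟩ r hr
  refine ⟨r • A, fun h => hA ?_, inertia_conj r A t ht⟩
  have h1 := hS r⁻¹ (inv_mem hr) _ h
  rwa [inv_smul_smul] at h1

/-- **Uniqueness of the place.** -/
theorem unique_place {p : ℕ} [hp : Fact p.Prime] {K L : Subgroup Gal(Qb/ℚ)}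
    (hK : IsOpen (K : Set Gal(Qb/ℚ))) {S : Set (ValuationSubring Qb)} {B : ValuationSubring Qb}
    (h : NonSplit p K (outside S) (dec B : Set Gal(Qb/ℚ))) (hL : InPExtension p K L (outside S))
    (σ : Gal(Qb/ℚ)) (hσ : σ ∈ K) : ∃ τ ∈ L, σ • B = τ • B := by
  obtain ⟨hLK, N, a, hNL, hN, hu⟩ := hL
  have h' := DVS.nonSplit_to (T := outside S) (D := dec B) hK h
  obtain ⟨δ, hδ, h1⟩ := DV.surjP (G := K) ((dec B).subgroupOf K) h' (U := N.subgroupOf K)
    ⟨fun σ hσ r => hN.normal σ hσ r r.2⟩ (a := a) hN.index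
    (hN.isOpen.preimage continuous_subtype_val) (fun t ht => hu t t.2 ht) ⟨σ, hσ⟩
  have h2 : (δ : Gal(Qb/ℚ))⁻¹ * σ ∈ N := h1
  have h3 : (δ : Gal(Qb/ℚ)) • B = B := hδ
  refine ⟨δ * ((δ : Gal(Qb/ℚ))⁻¹ * σ) * (δ : Gal(Qb/ℚ))⁻¹, hNL (hN.normal _ h2 δ δ.2), ?_⟩
  have h4 : (δ : Gal(Qb/ℚ))⁻¹ • B = B := by rw [inv_smul_eq_iff, h3]
  rw [mul_inv_cancel_left, mul_smul, h4]

end Pool.Agent.V7H44.MU
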